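import Pool.Agent.H66.LTS.Defs
import Pool.Agent.H30.LTF.Conv
import Pool.Agent.H3.L2.Assembly

/-!
Conversion between the objects of `Pool.H3.L2` and the definitions of `LTF`, second part.
-/

set_option autoImplicit false

open scoped BigOperators Topology Manifold ContDiff
open MeasureTheory Filter Pool.H3.L2

noncomputable section

namespace LTF

section

variable {K : Type} [Field K]

theorem coeff_mul_fintypeK {Q : Type} [Group Q] [Fintype Q] (a b : MonoidAlgebra K Q) (m : Q) :
    (a * b).coeff m = ∑ z, a.coeff z * b.coeff (z⁻¹ * m) := by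
  classical
  rw [MonoidAlgebra.coeff_mul, Finsupp.sum_fintype _ _ (by simp)]
  refine Finset.sum_congr rfl fun z _ => ?_
  rw [Finsupp.sum_fintype _ _ (by simp)]
  rw [Finset.sum_eq_single (z⁻¹ * m)]
  · simp
  · intro w _ hw
    rw [if_neg]
    rintro rfl
    exact hw (by group)
  · simp

variable {Γ Q : Type} [Group Γ] [Group Q]

/-- `red` for a homomorphism. -/
def redH (K : Type) [Field K] (φ : Γ →* Q) (a : MonoidAlgebra ℤ Γ) : MonoidAlgebra K Q :=
  a.coeff.sum fun g n => MonoidAlgebra.single (φ g) (n : K)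

theorem coeff_redH (φ : Γ →* Q) (a : MonoidAlgebra ℤ Γ) (q : Q) :
    (redH K φ a).coeff q = (((MonoidAlgebra.mapDomain φ a : MonoidAlgebra ℤ Q).coeff q : ℤ) : K) := by
  classical
  rw [MonoidAlgebra.coeff_mapDomain, Finsupp.mapDomain, Finsupp.sum_apply, redH, Finsupp.sum,
    MonoidAlgebra.coeff_sum, Finsupp.finsetSum_apply, Finsupp.sum, Int.cast_sum]
  refine Finset.sum_congr rfl fun g _ => ?_
  rw [MonoidAlgebra.coeff_single, Finsupp.single_apply, Finsupp.single_apply]
  split_ifs <;> simp

/-- Coordinates of chains with coefficients in `K[Q]`. -/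
def crdK (K : Type) [Field K] (S Q : Type) [Fintype Q] :
    (S → MonoidAlgebra K Q) ≃ₗ[K] (S × Q → K) where
  toFun v p := (v p.1).coeff p.2
  invFun u s := MonoidAlgebra.ofCoeff (Finsupp.equivFunOnFinite.symm fun q => u (s, q))
  left_inv v := by
    funext s
    ext q
    simp
  right_inv u := by
    funext p
    simp
  map_add' v w := by
    funext p
    simp
  map_smul' c v := by
    funext p
    simp

variable [Fintype Q] [DecidableEq Q]

theorem crdK_bd (C : BCx (GR Γ)) (φ : Γ →* Q) (v : C.S → MonoidAlgebra K Q) :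
    crdK K C.S Q (bd (redH K φ) C.D v) =
      Matrix.vecMul (crdK K C.S Q v) ((C.quot φ).map (Int.castRingHom K)).D := by
  funext p
  obtain ⟨t, y⟩ := p
  change (∑ s, v s * redH K φ (C.D s t) : MonoidAlgebra K Q).coeff y =
    ∑ p : C.S × Q, (v p.1).coeff p.2 *
      (((MonoidAlgebra.mapDomain φ (C.D p.1 t) : MonoidAlgebra ℤ Q).coeff (p.2⁻¹ * y) : ℤ) : K)
  rw [MonoidAlgebra.coeff_sum, Finsupp.finsetSum_apply, Fintype.sum_prod_type]
  refine Finset.sum_congr rfl fun s _ => ?_
  rw [coeff_mul_fintypeK]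
  refine Finset.sum_congr rfl fun z _ => ?_
  rw [coeff_redH]

theorem mem_ZkK (C : BCx (GR Γ)) (φ : Γ →* Q) (k : ℕ) (v : C.S → MonoidAlgebra K Q) :
    crdK K C.S Q v ∈ ((C.quot φ).map (Int.castRingHom K)).Zk k ↔
      IsCycle (redH K φ) C.deg C.D k v := by
  constructor
  · rintro ⟨h1, h2⟩
    refine ⟨fun s hs => ?_, fun t => ?_⟩
    · ext q
      exact h1 (s, q) hs
    · have h3 := (crdK_bd C φ v).trans h2
      ext q
      exact congrFun h3 (t, q)
  · rintro ⟨h1, h2⟩
    refine ⟨fun s hs => ?_, ?_⟩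
    · change (v s.1).coeff s.2 = 0
      rw [h1 s.1 hs]
      rfl
    · refine (crdK_bd C φ v).symm.trans ?_
      funext p
      change (bd _ C.D v p.1).coeff p.2 = 0
      rw [h2 p.1]
      rfl

theorem mem_BkK (C : BCx (GR Γ)) (φ : Γ →* Q) (k : ℕ) (v : C.S → MonoidAlgebra K Q) :
    crdK K C.S Q v ∈ ((C.quot φ).map (Int.castRingHom K)).Bk k ↔
      IsBdry (redH K φ) C.deg C.D k v := by
  constructor
  · rintro ⟨w, h1, h2⟩
    obtain ⟨w, rfl⟩ := (crdK K C.S Q).surjective w
    refine ⟨w, fun s hs => ?_, fun t => ?_⟩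
    · ext q
      exact h1 (s, q) hs
    · exact congrFun ((crdK K C.S Q).injective ((crdK_bd C φ w).trans h2)) t
  · rintro ⟨w, h1, h2⟩
    refine ⟨crdK K C.S Q w, fun s hs => ?_, ?_⟩
    · change (w s.1).coeff s.2 = 0
      rw [h1 s.1 hs]
      rfl
    · exact (crdK_bd C φ w).symm.trans (congrArg (crdK K C.S Q) (funext h2))

omit [DecidableEq Q] [Group Q] in
theorem finrank_set {S : Type} (P : (S → MonoidAlgebra K Q) → Prop) (Z : Submodule K (S × Q → K))
    (h : ∀ v, crdK K S Q v ∈ Z ↔ P v) : Set.finrank K {v | P v} = Module.finrank K Z := by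
  have h1 : {v | P v} = ((Z.comap (crdK K S Q : (S → MonoidAlgebra K Q) →ₗ[K] (S × Q → K)) :
      Submodule K (S → MonoidAlgebra K Q)) : Set (S → MonoidAlgebra K Q)) := by
    ext v
    exact (h v).symm
  rw [h1, Set.finrank, Submodule.span_eq]
  exact ((crdK K S Q).ofSubmodule' Z).finrank_eq

theorem betti_quot (C : BCx (GR Γ)) (φ : Γ →* Q) (k : ℕ) :
    Set.finrank K {v | IsCycle (redH K φ) C.deg C.D k v} -
      Set.finrank K {v | IsBdry (redH K φ) C.deg C.D k v} = (C.quot φ).betti K k := by
  rw [finrank_set _ _ (mem_ZkK C φ k), finrank_set _ _ (mem_BkK C φ k), BCx.betti]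
  exact Nat.sub_eq_of_eq_add (((C.quot φ).map (Int.castRingHom K)).finrank_HkE k).symm

end

theorem betti_eq {Γ : Type} [Group Γ] (K : Type) [Field K] (C : BCx (GR Γ)) (N : Subgroup Γ)
    [N.Normal] [N.FiniteIndex] (k : ℕ) : betti K N C.deg C.D k = (C.cover N).betti K k :=
  let _ : Fintype (Γ ⧸ N) := Fintype.ofFinite _
  let _ : DecidableEq (Γ ⧸ N) := Classical.decEq _
  betti_quot (K := K) C (QuotientGroup.mk' N) k

section

variable {Γ S : Type} [Group Γ] [Fintype S] [DecidableEq S] {deg : S → ℕ}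
  {D : Matrix S S (MonoidAlgebra ℤ Γ)}

/-- The complex. -/
def cxOf (h : IsRes deg D) : BCx (GR Γ) where
  S := S
  deg := deg
  D := D
  deg_D := h.degree
  D_D := by
    ext s u
    exact congrArg (fun a : MonoidAlgebra ℤ Γ => a.coeff _) (h.square s u)

theorem cxOf_isRes (h : IsRes deg D) : (cxOf h).IsRes := by
  obtain ⟨e, h1, h2, h3, h4⟩ := h.exact
  refine ⟨e, h1, h2, h3, fun v hv hv' => ?_⟩
  obtain ⟨w, hw⟩ := h4 v (fun t => congrFun hv t) hv'
  exact ⟨w, funext hw⟩

theorem cxOf_isSpectral (h : IsRes deg D) {k : ℕ} {μ : Measure ℝ} (hμ : IsSpectral deg D k μ) :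
    (cxOf h).IsSpectral k μ :=
  ⟨hμ.finite, hμ.bounded, hμ.moment⟩

/-- The residual chain. -/
def chainOf {N : ℕ → Subgroup Γ} (h : IsResidual N) : ResChain Γ where
  N := N
  normal := h.normal
  fin := h.finite
  zero := (Subgroup.eq_top_iff' _).2 h.first
  anti := strictAnti_nat_of_succ_lt h.anti
  inf := by
    rw [eq_bot_iff]
    intro g hg
    rw [Subgroup.mem_iInf] at hg
    exact Subgroup.mem_bot.2 (h.inter g hg)

theorem dual_of (K : Type) [Field K] (h : IsRes deg D) {N : ℕ → Subgroup Γ} [∀ i, (N i).Normal]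
    (hN : IsResidual N) {n : ℕ} (hd : Dual K N deg D n) : DualBetti K (cxOf h) (chainOf hN) n := by
  constructor
  · intro i a b hab
    have h1 := hd.1 i a b hab
    have : (N i).FiniteIndex := hN.finite i
    have e : ∀ j, betti K (N i) deg D j =
        ((cxOf h).cover ((chainOf hN).N i)).betti K j := fun j =>
      betti_eq K (cxOf h) ((chainOf hN).N i) j
    rw [e, e] at h1
    exact h1
  · intro i a ha
    have h1 := hd.2 i a ha
    have e : betti K (N i) deg D a =
        ((cxOf h).cover ((chainOf hN).N i)).betti K a :=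
      betti_eq K (cxOf h) ((chainOf hN).N i) a
    rw [e] at h1
    exact h1

end

/-- The manifold. -/
def mfdOf {Γ E V : Type} [Group Γ] [TopologicalSpace E] [MulAction Γ E] [NormedAddCommGroup V]
    [NormedSpace ℝ V] [ChartedSpace V E] {n : ℕ} (h : IsAspherical Γ E V n) :
    AsphericalMfd n :=
  { V := V
    findim := h.finite
    finrank_V := h.dim
    E := E
    mfd := h.mfd
    t2 := h.hausdorff
    sc := h.countable
    contr := h.contractible
    Γ := Γ
    smooth := h.smooth
    free := h.free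
    proper := by
      intro K L hK hL
      refine (h.proper K L hK hL).subset ?_
      rintro g ⟨_, ⟨x, hx, rfl⟩, hy⟩
      exact ⟨x, hx, hy⟩
    cocompact := h.cocompact }

theorem q1At_of {n : ℕ} (M : AsphericalMfd n) {G : Type} [Group G] (e : M.Γ ≃* G) (k : ℕ)
    (hn : n = 2 * k + 1) (h : Q1On G k) : Q1At M k := by
  subst hn
  intro C hC μ hμ hμ0 c
  have h1 := h M.Γ M.E M.V ⟨e⟩ (isAspherical_of M) C.S C.deg C.D μ c.N (isRes_of hC)
    (isResidual_of c) (fun j => isSpectral_of (hμ j)) hμ0
  have h2 : ∀ i, torsOrd (c.N i) C.deg C.D k = (C.cover (c.N i)).torsOrd k := fun i =>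
    torsOrd_eq C (c.N i) k
  simp only [h2] at h1
  exact h1

/-- The group of the power. -/
def powEquiv {n : ℕ} (M : AsphericalMfd n) : (r : ℕ) → (M.pow r).Γ ≃* (Fin (r + 1) → M.Γ)
  | 0 =>
    { toFun := fun g _ => g
      invFun := fun f => f 0
      left_inv := fun _ => rfl
      right_inv := fun f => by
        funext i
        rw [show i = 0 from Fin.fin_one_eq_zero i]
      map_mul' := fun _ _ => rfl }
  | r + 1 =>
    { toFun := fun g => Fin.cons (α := fun _ => M.Γ) g.1 (powEquiv M r g.2)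
      invFun := fun f => (f 0, (powEquiv M r).symm fun i => f i.succ)
      left_inv := fun g => by
        refine Prod.ext rfl ?_
        change (powEquiv M r).symm (fun i => powEquiv M r g.2 i) = g.2
        exact (powEquiv M r).symm_apply_apply g.2
      right_inv := fun f => by
        funext i
        refine Fin.cases rfl (fun j => ?_) i
        change (powEquiv M r) ((powEquiv M r).symm fun i => f i.succ) j = f j.succ
        rw [MulEquiv.apply_symm_apply]
      map_mul' := fun g g' => by
        funext i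
        refine Fin.cases rfl (fun j => ?_) i
        change (powEquiv M r) (g.2 * g'.2) j = (powEquiv M r) g.2 j * (powEquiv M r) g'.2 j
        rw [map_mul]
        rfl }

end LTF
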