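import Pool.Agent.H30.LTF.Defs

/-!
Q1 for the closed aspherical manifolds with a given fundamental group, Betti numbers of finite
covers, Poincare duality.
-/

open MeasureTheory Filter
open scoped Topology

noncomputable section

namespace LTF

/-- Q1 for the closed aspherical smooth manifolds `E / Γ` of dimension `2k+1` with fundamental group
`Γ` isomorphic to `G`: for every finite based free resolution of `ℤ` with all `L²`-Betti numbers
zero and every residual chain `N`, `log |tors H_k(E / N i; ℤ)| / [Γ : N i]` tends to `(-1)^k` times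
the `L²`-torsion. -/
def Q1On (G : Type) [Group G] (k : ℕ) : Prop :=
  ∀ (Γ E V : Type) [Group Γ] [TopologicalSpace E] [MulAction Γ E] [NormedAddCommGroup V]
    [NormedSpace ℝ V] [ChartedSpace V E], Nonempty (Γ ≃* G) → IsAspherical Γ E V (2 * k + 1) →
  ∀ (S : Type) [Fintype S] [DecidableEq S] (deg : S → ℕ) (D : Matrix S S (MonoidAlgebra ℤ Γ))
    (μ : ℕ → Measure ℝ) (N : ℕ → Subgroup Γ) [∀ i, (N i).Normal], IsRes deg D → IsResidual N →
    (∀ j, IsSpectral deg D j (μ j)) → (∀ j, μ j {0} = 0) →
    Tendsto (fun i => Real.log (torsOrd (N i) deg D k) / (N i).index) atTop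
      (𝓝 ((-1) ^ k * rho deg μ))

section

variable {S Γ : Type} [Fintype S] [Group Γ] (K : Type) [Field K]

/-- The map `ℤΓ → K[Γ / N]`. -/
def red (N : Subgroup Γ) [N.Normal] (a : MonoidAlgebra ℤ Γ) : MonoidAlgebra K (Γ ⧸ N) :=
  a.coeff.sum fun g n => MonoidAlgebra.single (g : Γ ⧸ N) (n : K)

/-- The Betti number of the cover `E / N` with coefficients in the field `K`: the dimension of the
space of cycles minus the dimension of the space of boundaries, for the complex over `K[Γ / N]`. -/
def betti (N : Subgroup Γ) [N.Normal] (deg : S → ℕ) (D : Matrix S S (MonoidAlgebra ℤ Γ))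
    (k : ℕ) : ℕ :=
  Set.finrank K {v | IsCycle (red K N) deg D k v} - Set.finrank K {v | IsBdry (red K N) deg D k v}

/-- The Betti numbers `b_j` of all covers `E / N i` satisfy `b_a = b_(n-a)`, and `b_a = 0` for
`a > n`. -/
def Dual (N : ℕ → Subgroup Γ) [∀ i, (N i).Normal] (deg : S → ℕ)
    (D : Matrix S S (MonoidAlgebra ℤ Γ)) (n : ℕ) : Prop :=
  (∀ i a b, a + b = n → betti K (N i) deg D a = betti K (N i) deg D b) ∧
    ∀ i a, n < a → betti K (N i) deg D a = 0

end

end LTF
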