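import Pool.Agent.H66.LTS.Conv

/-!
The three partial results on Q1 in the definitions of `LTF`.
-/

set_option autoImplicit false

open scoped BigOperators Topology
open MeasureTheory Filter Pool.H3.L2

namespace LTF

section

variable (k m : ℕ) (Γ E V Δ F W : Type) [Group Γ] [TopologicalSpace E]
    [MulAction Γ E] [NormedAddCommGroup V] [NormedSpace ℝ V] [ChartedSpace V E] [Group Δ]
    [TopologicalSpace F] [MulAction Δ F] [NormedAddCommGroup W] [NormedSpace ℝ W]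
    [ChartedSpace W F]

theorem singerOdd (hY : IsAspherical Γ E V (2 * k + 1)) (hX : IsAspherical Δ F W (2 * m + 1))
    (hQY : Q1On Γ k) (hQZ : Q1On (Δ × Δ × Γ) (2 * m + 1 + k))
    (S : Type) [Fintype S] [DecidableEq S] (deg : S → ℕ) (D : Matrix S S (MonoidAlgebra ℤ Γ))
    (μ : ℕ → Measure ℝ) (N : ℕ → Subgroup Γ) (hS : IsRes deg D) (hN : IsResidual N)
    (hμ : ∀ j, IsSpectral deg D j (μ j)) (hμ0 : ∀ j, μ j {0} = 0) (hρ : rho deg μ ≠ 0)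
    (T : Type) [Fintype T] [DecidableEq T] (deg' : T → ℕ) (D' : Matrix T T (MonoidAlgebra ℤ Δ))
    (N' : ℕ → Subgroup Δ) [∀ i, (N' i).Normal] (hT : IsRes deg' D') (hN' : IsResidual N')
    (hR : Dual ℝ N' deg' D' (2 * m + 1)) (l : ℕ) (ν : Measure ℝ) (hν : IsSpectral deg' D' l ν) :
    ν {0} = 0 := by
  have h := Dat.real_growth (⟨cxOf hS, chainOf hN, cxOf_isRes hS⟩ : Dat (mfdOf hY))
    (q1At_of (mfdOf hY) (MulEquiv.refl Γ) k rfl hQY)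
    ⟨fun j => cxOf_isSpectral hS (hμ j), hμ0⟩ hρ
    (⟨cxOf hT, chainOf hN', cxOf_isRes hT⟩ : Dat (mfdOf hX)) rfl rfl
    (q1At_of _ (MulEquiv.refl (Δ × Δ × Γ)) (2 * m + 1 + k) (by ring) hQZ)
    (dual_of ℝ hT hN' hR) l
  exact (Pool.H29.L2.luck (cxOf_isSpectral hT hν) h).1

theorem fpSingerOdd (hY : IsAspherical Γ E V (2 * k + 1)) (hX : IsAspherical Δ F W (2 * m + 1))
    (hQY : Q1On Γ k) (hQZ : Q1On (Δ × Δ × Γ) (2 * m + 1 + k))
    (hQP : Q1On (Fin (2 * m + 3) → Δ) (2 * m ^ 2 + 4 * m + 1))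
    (S : Type) [Fintype S] [DecidableEq S] (deg : S → ℕ) (D : Matrix S S (MonoidAlgebra ℤ Γ))
    (μ : ℕ → Measure ℝ) (N : ℕ → Subgroup Γ) (hS : IsRes deg D) (hN : IsResidual N)
    (hμ : ∀ j, IsSpectral deg D j (μ j)) (hμ0 : ∀ j, μ j {0} = 0) (hρ : rho deg μ ≠ 0)
    (T : Type) [Fintype T] [DecidableEq T] (deg' : T → ℕ) (D' : Matrix T T (MonoidAlgebra ℤ Δ))
    (N' : ℕ → Subgroup Δ) [∀ i, (N' i).Normal] (hT : IsRes deg' D') (hN' : IsResidual N')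
    (hR : Dual ℝ N' deg' D' (2 * m + 1)) (p : ℕ) [Fact p.Prime]
    (hp : Dual (ZMod p) N' deg' D' (2 * m + 1)) (j : ℕ) :
    Tendsto (fun i => (betti (ZMod p) (N' i) deg' D' j : ℝ) / (N' i).index) atTop (𝓝 0) := by
  have e : 2 * m ^ 2 + 4 * m + 1 = (2 * m + 3) * m + (m + 1) := by ring
  have hP : Q1At ((mfdOf hX).pow (2 * m + 2)) (2 * m ^ 2 + 4 * m + 1) :=
    q1At_of _ (powEquiv (mfdOf hX) (2 * m + 2)) _ (by ring) hQP
  rw [e] at hP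
  have h := Dat.modp_growth' (⟨cxOf hS, chainOf hN, cxOf_isRes hS⟩ : Dat (mfdOf hY))
    (q1At_of (mfdOf hY) (MulEquiv.refl Γ) k rfl hQY)
    ⟨fun j => cxOf_isSpectral hS (hμ j), hμ0⟩ hρ
    (⟨cxOf hT, chainOf hN', cxOf_isRes hT⟩ : Dat (mfdOf hX)) rfl rfl
    (q1At_of _ (MulEquiv.refl (Δ × Δ × Γ)) (2 * m + 1 + k) (by ring) hQZ) hP
    (dual_of ℝ hT hN' hR) p (dual_of (ZMod p) hT hN' hp) j
  refine h.congr fun i => ?_
  have e2 : betti (ZMod p) (N' i) deg' D' j =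
      ((cxOf hT).cover ((chainOf hN').N i)).betti (ZMod p) j :=
    betti_eq (ZMod p) (cxOf hT) ((chainOf hN').N i) j
  rw [e2]
  rfl

end

theorem powerFpGrowth (m : ℕ) (Δ F W : Type) [Group Δ] [TopologicalSpace F] [MulAction Δ F]
    [NormedAddCommGroup W] [NormedSpace ℝ W] [ChartedSpace W F]
    (hX : IsAspherical Δ F W (2 * m + 1))
    (S : Type) [Fintype S] [DecidableEq S] (deg : S → ℕ) (D : Matrix S S (MonoidAlgebra ℤ Δ))
    (μ : ℕ → Measure ℝ) (N : ℕ → Subgroup Δ) [∀ i, (N i).Normal] (hS : IsRes deg D)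
    (hN : IsResidual N) (hμ : ∀ j, IsSpectral deg D j (μ j)) (hμ0 : ∀ j, μ j {0} = 0)
    (hR : Dual ℝ N deg D (2 * m + 1)) (p : ℕ) [Fact p.Prime]
    (hp : Dual (ZMod p) N deg D (2 * m + 1)) (j : ℕ)
    (hj : ¬ Tendsto (fun i => (betti (ZMod p) (N i) deg D j : ℝ) / (N i).index) atTop (𝓝 0)) :
    ¬ Q1On (Fin (2 * m + 3) → Δ) (2 * m ^ 2 + 4 * m + 1) := by
  intro hQP
  have e : 2 * m ^ 2 + 4 * m + 1 = (2 * m + 3) * m + (m + 1) := by ring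
  have hP : Q1At ((mfdOf hX).pow (2 * m + 2)) (2 * m ^ 2 + 4 * m + 1) :=
    q1At_of _ (powEquiv (mfdOf hX) (2 * m + 2)) _ (by ring) hQP
  rw [e] at hP
  have hg : (⟨cxOf hS, chainOf hN, cxOf_isRes hS⟩ : Dat (mfdOf hX)).Good μ :=
    ⟨fun j => cxOf_isSpectral hS (hμ j), hμ0⟩
  have h := Dat.modp_growth (⟨cxOf hS, chainOf hN, cxOf_isRes hS⟩ : Dat (mfdOf hX)) hP
    (dual_of ℝ hS hN hR) hg (fun l => hg.betti l) p (dual_of (ZMod p) hS hN hp) j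
  refine hj (h.congr fun i => ?_)
  have e2 : betti (ZMod p) (N i) deg D j =
      ((cxOf hS).cover ((chainOf hN).N i)).betti (ZMod p) j :=
    betti_eq (ZMod p) (cxOf hS) ((chainOf hN).N i) j
  rw [e2]
  rfl

end LTF
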